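import Mathlib
import Pool.Agent.Helper9.NS
import Pool.Agent.Helper40.CX.H21TO.Defs
import Pool.Agent.Helper40.CX.H51VN.Fun
import Pool.Agent.Helper40.CX.H21TO.Wa
import Pool.Agent.Helper40.CX.H83QF.Sum
import Pool.Agent.Helper40.CX.Good2

namespace CX

/-!
# Block TB-Hrm: harmonic functions: elementary facts and averages
`Harm` is defined in Helper51/VN/Fun.lean. `harm_const`: the degree of a principal divisor is zero (`FF.deg_dv`,
Helper17/FF; see the sums in Helper83/QF/Sum.lean). `harm_zero`: suppose `G w ≠ 0`. Choose by `wa` (TO/Wa, with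
`g = 1`) `z ∈ K` with residue `0` at `w` and residue `1` at the other places of `T` and at one more place (there
are infinitely many places; or modify `z`), so `z ≠ 0`, `ord_w z > 0`, `ord_{w'} z = 0` for the other `w' ∈ T`.
The sum over the support of `z` reduces to `ord_w z * G w`, so `G w = 0`. `harm_kills`: `Kills` (Helper26/VC) in
terms of the sums over `finite_support_ord` for all morphisms: this direction is the definition
(`S.eval` composed with `φ`), compare `Kills.gen` in Helper83/VF/Kill.lean. `exists_avg`: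
`G v = (nram v)⁻¹ * ∑ over w above v of ram w * G' w`, with `VP.ram`, `VP.finite_res` and `QF.nram` (Helper83/QF/Sum.lean;
`nram` does not depend on `v`, `nram_eq`, and is positive). Harmonic:
`∑_v ord_v h * G v = nram⁻¹ ∑_w ram w * ord_{res w} h * G' w = nram⁻¹ ∑_w ord_w (algebraMap h) * G' w = 0`
(`VP.ord_ram`); use the homomorphisms on divisors as in `kills_res` there.
-/

set_option linter.unusedSectionVars false

namespace Pool.Agent.Helper21.TB

open VC VF Function Polynomial
open Pool.Agent.Helper21.TO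
open Pool.Agent.Helper51.VN (Harm)

universe u

variable {k : Type u} [Field k] [IsAlgClosed k] [Good k] {K : Type u} [Field K] [Algebra k K]

/-- the sum of `G` over a divisor -/
private noncomputable def Phi88 (G : Place k K → ℂ) : (Place k K →₀ ℤ) →+ ℂ :=
  Finsupp.liftAddHom fun v => (AddMonoidHom.mulRight (G v)).comp (Int.castAddHom ℂ)

private lemma Phi88_single (G : Place k K → ℂ) (v : Place k K) (m : ℤ) :
    Phi88 G (Finsupp.single v m) = (m : ℂ) * G v := by
  simp [Phi88]

private lemma Phi88_dv (hK : IsFunctionField k K) (G : Place k K → ℂ) {f : K} (hf : f ≠ 0) :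
    Phi88 G (FF.dv hK f) =
      ∑ v ∈ (finite_support_ord hK hf).toFinset, (ord v.ring f : ℂ) * G v := by
  classical
  have h2 : FF.dv hK f = ∑ v ∈ (finite_support_ord hK hf).toFinset,
      Finsupp.single v (ord v.ring f) := by
    ext Q
    rw [FF.dv_apply, Finsupp.finsetSum_apply]
    by_cases hQ : Q ∈ (finite_support_ord hK hf).toFinset
    · rw [Finset.sum_eq_single_of_mem Q hQ]
      · rw [Finsupp.single_eq_same]
      · intro b _ hb
        rw [Finsupp.single_apply, if_neg hb]
    · rw [Finset.sum_eq_zero]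
      · by_contra h3
        apply hQ
        rw [Set.Finite.mem_toFinset]
        exact h3
      · intro b hb
        rw [Finsupp.single_apply, if_neg]
        rintro rfl
        exact hQ hb
  rw [h2, map_sum]
  exact Finset.sum_congr rfl fun v _ => Phi88_single G v _

theorem harm_const (hK : IsFunctionField k K) (c : ℂ) : Harm hK (fun _ => c) := by
  intro f hf
  rw [← Phi88_dv hK (fun _ => c) hf]
  have key : ∀ D : Place k K →₀ ℤ, Phi88 (fun _ => c) D = ((FF.deg D : ℤ) : ℂ) * c := by
    intro D
    induction D using Finsupp.induction_linear with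
    | zero => rw [map_zero, map_zero, Int.cast_zero, zero_mul]
    | add D D' hD hD' => rw [map_add, map_add, hD, hD', Int.cast_add, add_mul]
    | single P m => rw [Phi88_single, FF.deg_single]
  rw [key, FF.deg_dv hK hf, Int.cast_zero, zero_mul]

theorem harm_sub {hK : IsFunctionField k K} {G G' : Place k K → ℂ} (h : Harm hK G)
    (h' : Harm hK G') : Harm hK (fun w => G w - G' w) := by
  intro f hf
  have h1 := h f hf
  have h2 := h' f hf
  simp only [mul_sub, Finset.sum_sub_distrib]
  rw [h1, h2, sub_zero]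

theorem harm_smul {hK : IsFunctionField k K} {G : Place k K → ℂ} (h : Harm hK G) (c : ℂ) :
    Harm hK (fun w => c * G w) := by
  intro f hf
  have h1 := h f hf
  have h2 : ∀ v : Place k K, (ord v.ring f : ℂ) * (c * G v) = c * ((ord v.ring f : ℂ) * G v) :=
    fun v => by ring
  simp only [h2]
  rw [← Finset.mul_sum, h1, mul_zero]

private lemma ord_zero88 (hK : IsFunctionField k K) {v : Place k K} {x : K} {c : k}
    (h : IsRes v x c) (hc : c ≠ 0) : ord v.ring x = 0 := by
  have h1 := h.inv_mem hc
  have h2 := (FF.ord_nonneg_iff hK v h1.1).mpr h.mem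
  have h3 := (FF.ord_nonneg_iff hK v (inv_ne_zero h1.1)).mpr h1.2
  rw [FF.ord_inv hK v h1.1] at h3
  omega

theorem harm_zero {hK : IsFunctionField k K} {G : Place k K → ℂ} (h : Harm hK G)
    {T : Set (Place k K)} (hT : T.Finite) (h0 : ∀ w ∉ T, G w = 0) (w : Place k K) : G w = 0 := by
  classical
  by_cases hw : w ∈ T
  swap
  · exact h0 w hw
  obtain ⟨π, hπ0, hπ⟩ := FF.exists_uniformizer hK w
  obtain ⟨z, hz⟩ := wa hK T hT (fun v => if v = w then π⁻¹ else 1)
    (fun v => by
      by_cases hv : v = w
      · simp [hv, hπ0]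
      · simp [hv]) (fun _ => 1)
  have h1 := hz w hw
  simp only [if_true] at h1
  have h2 : π⁻¹ * z ≠ 0 := h1.ne_zero one_ne_zero
  have hz0 : z ≠ 0 := right_ne_zero_of_mul h2
  have h3 : ord w.ring z = 1 := by
    have h4 := ord_zero88 hK h1 one_ne_zero
    rw [FF.ord_mul hK w (inv_ne_zero hπ0) hz0, FF.ord_inv hK w hπ0, hπ] at h4
    omega
  have h4 := h z hz0
  rw [Finset.sum_eq_single w] at h4
  · rw [h3, Int.cast_one, one_mul] at h4
    exact h4
  · intro v hv hvw
    by_cases hvT : v ∈ T
    · have h5 := hz v hvT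
      simp only [if_neg hvw, one_mul] at h5
      rw [ord_zero88 hK h5 one_ne_zero, Int.cast_zero, zero_mul]
    · rw [h0 v hvT, mul_zero]
  · intro hcon
    exfalso
    apply hcon
    rw [Set.Finite.mem_toFinset]
    change ord w.ring z ≠ 0
    rw [h3]
    exact one_ne_zero

theorem harm_kills {S : Variety k} {φ : S.Pt → ℂ} (hφ : Kills S φ) (hK : IsFunctionField k K)
    (c : S.Mor K) : Harm hK (fun w => φ (S.eval hK c w)) :=
  fun _ hf => hφ.gen hK c hf

theorem exists_avg {K' : Type u} [Field K'] [Algebra k K'] [Algebra K K'] [IsScalarTower k K K']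
    (hK : IsFunctionField k K) (hK' : IsFunctionField k K') {G' : Place k K' → ℂ}
    (h : Harm hK' G') : ∃ G : Place k K → ℂ, Harm hK G ∧ ∀ (v : Place k K) (A : ℂ),
      (∀ w : Place k K', VQ.res hK hK' w = v → G' w = A) → G v = A := by
  classical
  have hn : ∀ P : Place k K, ((Helper83.QF.nram hK hK' P : ℤ) : ℂ) ≠ 0 := fun P =>
    Int.cast_ne_zero.mpr (Helper83.QF.nram_pos hK hK' P).ne'
  refine ⟨fun P => ((Helper83.QF.nram hK hK' P : ℤ) : ℂ)⁻¹ *
    ∑ Q ∈ (VP.finite_res hK hK' P).toFinset, (VP.ram hK hK' Q : ℂ) * G' Q, ?_, ?_⟩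
  · intro f hf
    rw [← Phi88_dv hK _ hf]
    rcases isEmpty_or_nonempty (Place k K) with hE | ⟨⟨P0⟩⟩
    · have h2 : FF.dv hK f = 0 := by
        ext Q
        exact (hE.false Q).elim
      rw [h2, map_zero]
    have hcomp : ∀ D : Place k K →₀ ℤ, Phi88 G' (Helper83.QF.pb hK hK' D) =
        ((Helper83.QF.nram hK hK' P0 : ℤ) : ℂ) * Phi88 (fun P =>
          ((Helper83.QF.nram hK hK' P : ℤ) : ℂ)⁻¹ *
            ∑ Q ∈ (VP.finite_res hK hK' P).toFinset, (VP.ram hK hK' Q : ℂ) * G' Q) D := by
      intro D
      induction D using Finsupp.induction_linear with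
      | zero => rw [map_zero, map_zero, map_zero, mul_zero]
      | add D D' hD hD' => rw [map_add, map_add, map_add, hD, hD', mul_add]
      | single P m =>
        rw [Helper83.QF.pb_single, map_sum, Phi88_single, Helper83.QF.nram_eq hK hK' P P0]
        have h3 : ((Helper83.QF.nram hK hK' P : ℤ) : ℂ) * ((m : ℂ) *
            (((Helper83.QF.nram hK hK' P : ℤ) : ℂ)⁻¹ *
              ∑ Q ∈ (VP.finite_res hK hK' P).toFinset, (VP.ram hK hK' Q : ℂ) * G' Q)) =
            (m : ℂ) * ∑ Q ∈ (VP.finite_res hK hK' P).toFinset, (VP.ram hK hK' Q : ℂ) * G' Q := by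
          have := hn P
          field_simp
        rw [h3, Finset.mul_sum]
        apply Finset.sum_congr rfl
        intro Q _
        rw [Phi88_single]
        push_cast
        ring
    have h2 := hcomp (FF.dv hK f)
    have hf' : algebraMap K K' f ≠ 0 := (_root_.map_ne_zero _).mpr hf
    rw [Helper83.QF.pb_dv hK hK' hf, Phi88_dv hK' G' hf', h _ hf'] at h2
    exact (mul_eq_zero.mp h2.symm).resolve_left (hn P0)
  · intro v A hA
    have h1 : ∑ Q ∈ (VP.finite_res hK hK' v).toFinset, (VP.ram hK hK' Q : ℂ) * G' Q =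
        ((Helper83.QF.nram hK hK' v : ℤ) : ℂ) * A := by
      rw [Helper83.QF.nram]
      push_cast
      rw [Finset.sum_mul]
      apply Finset.sum_congr rfl
      intro Q hQ
      rw [Set.Finite.mem_toFinset] at hQ
      rw [hA Q hQ]
    change ((Helper83.QF.nram hK hK' v : ℤ) : ℂ)⁻¹ *
      ∑ Q ∈ (VP.finite_res hK hK' v).toFinset, (VP.ram hK hK' Q : ℂ) * G' Q = A
    rw [h1, inv_mul_cancel_left₀ (hn v)]

end Pool.Agent.Helper21.TB

end CX
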