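import Mathlib
import Pool.Agent.Helper9.NS
import Pool.Agent.Helper40.CX.H21TO.Defs
import Pool.Agent.Helper40.CX.H51VN.Fun
import Pool.Agent.Helper40.CX.H21TB.Hrm
import Pool.Agent.Helper40.CX.H83QF.Sum
import Pool.Agent.Helper40.CX.H83VF.Fields
import Pool.Agent.Helper40.CX.Good2

namespace CX

/-!
# Block TB-Pull: the pullback of a harmonic function
Regard `K` as an `F`-algebra by `ι` (`ι.toRingHom.toAlgebra`), it is finite over `F`. Let `K'` be the normal
closure of `K` over `F` in an algebraic closure of `K` (or a splitting field over `K` of the product of the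
minimal polynomials over `F` of generators of `K`): a finite Galois extension of `F` (characteristic
zero), a function field (`VF.ff_ext`) containing `K`. `G = K' ≃ₐ[F] K'`. For `z ∈ K'` nonzero let
`S z = ∑_w ord_w z * κ (w restricted to F)`, a homomorphism from the nonzero elements to `k`. For `σ ∈ G`:
`ord_w (σ z) = ord_{σ^* w} z` (`Place.comap` along `σ`) and `σ^* w` has the same restriction to `F`, so
`S (σ z) = S z`. `N = ∏ σ z` is in `F`, and `card G * S z = S N = nram * ∑_P ord_P N * κ P = 0` (`h`; the
computation in `QF.kills_res`, Helper83/QF/Sum.lean, read backwards: `ΦL (pb D) = nram * ΦK D`). So `S z = 0`.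
For `z` in `K` this gives the claim by `QF.kills_res` for `K ⊆ K'` and `g = κ ∘ (restriction to F)`
(restrictions compose: `VQ.res_comap`). `harm_curve`: `Kills (curve hF) κ` means the vanishing for constant
morphisms (`harm_const`) and for embeddings (`pull_harm`).
-/

set_option linter.unusedSectionVars false

namespace Pool.Agent.Helper21.TB

open VC VF Function Polynomial
open Pool.Agent.Helper21.TO
open Pool.Agent.Helper51.VN (Harm)

universe u

section h99aux

variable {k : Type u} [Field k] [IsAlgClosed k] [Good k]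

private noncomputable def h99_S {K : Type u} [Field K] [Algebra k K] (g : Place k K → ℂ)
    (z : K) : ℂ := ∑ᶠ w : Place k K, (ord w.ring z : ℂ) * g w

private lemma h99_fin {K : Type u} [Field K] [Algebra k K] (hK : IsFunctionField k K)
    (g : Place k K → ℂ) {z : K} (hz : z ≠ 0) :
    (Function.support fun w : Place k K => (ord w.ring z : ℂ) * g w).Finite := by
  apply (finite_support_ord hK hz).subset
  intro v hv h0
  apply hv
  have h1 : ord v.ring z = 0 := h0
  simp [h1]

private lemma h99_S_eq {K : Type u} [Field K] [Algebra k K] (hK : IsFunctionField k K)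
    (g : Place k K → ℂ) {z : K} (hz : z ≠ 0) :
    h99_S g z = ∑ v ∈ (finite_support_ord hK hz).toFinset, (ord v.ring z : ℂ) * g v := by
  unfold h99_S
  apply finsum_eq_sum_of_support_subset
  intro v hv
  rw [Set.Finite.coe_toFinset]
  intro h0
  apply hv
  have h1 : ord v.ring z = 0 := h0
  simp [h1]

private lemma h99_S_mul {K : Type u} [Field K] [Algebra k K] (hK : IsFunctionField k K)
    (g : Place k K → ℂ) {y z : K} (hy : y ≠ 0) (hz : z ≠ 0) :
    h99_S g (y * z) = h99_S g y + h99_S g z := by
  unfold h99_S
  rw [← finsum_add_distrib (h99_fin hK g hy) (h99_fin hK g hz)]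
  apply finsum_congr
  intro v
  rw [ord_mul hK v hy hz]
  push_cast
  ring

private lemma h99_S_one {K : Type u} [Field K] [Algebra k K] (hK : IsFunctionField k K)
    (g : Place k K → ℂ) : h99_S g (1 : K) = 0 := by
  unfold h99_S
  rw [← finsum_zero (α := Place k K)]
  apply finsum_congr
  intro v
  rw [VC.ord_one hK v]
  simp

private lemma h99_S_prod {K : Type u} [Field K] [Algebra k K] (hK : IsFunctionField k K)
    (g : Place k K → ℂ) {ι : Type*} (s : Finset ι) (f : ι → K) (hf : ∀ i ∈ s, f i ≠ 0) :
    h99_S g (∏ i ∈ s, f i) = ∑ i ∈ s, h99_S g (f i) := by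
  classical
  induction s using Finset.induction_on with
  | empty => rw [Finset.prod_empty, Finset.sum_empty, h99_S_one hK]
  | insert a s ha ih =>
    rw [Finset.prod_insert ha, Finset.sum_insert ha, h99_S_mul hK g (hf a (by simp))
      (Finset.prod_ne_zero_iff.mpr (fun i hi => hf i (by simp [hi]))),
      ih (fun i hi => hf i (by simp [hi]))]

private lemma h99_comap_comp {K : Type u} [Field K] [Algebra k K] (hK : IsFunctionField k K)
    (σ τ : K ≃ₐ[k] K) (hστ : ∀ x, σ (τ x) = x) (w : Place k K) :
    Place.comap hK hK (τ : K →ₐ[k] K) (Place.comap hK hK (σ : K →ₐ[k] K) w) = w := by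
  ext x
  change σ (τ x) ∈ w.ring ↔ x ∈ w.ring
  rw [hστ]

private lemma h99_ord_equiv {K : Type u} [Field K] [Algebra k K] (hK : IsFunctionField k K)
    (σ : K ≃ₐ[k] K) (w : Place k K) {z : K} (hz : z ≠ 0) :
    ord w.ring (σ z) = ord (Place.comap hK hK (σ : K →ₐ[k] K) w).ring z := by
  obtain ⟨e, he, h1⟩ := VP.ord_comap hK hK (σ : K →ₐ[k] K) w
  obtain ⟨e', he', h2⟩ := VP.ord_comap hK hK (σ.symm : K →ₐ[k] K)
    (Place.comap hK hK (σ : K →ₐ[k] K) w)
  rw [h99_comap_comp hK σ σ.symm (fun x => σ.apply_symm_apply x) w] at h2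
  obtain ⟨π, hπ0, hπ⟩ := VP.exists_uniformizer hK w
  have h3 := h2 π hπ0
  have h4 := h1 (σ.symm π) (by
    intro h
    apply hπ0
    have := congrArg σ h
    rwa [AlgEquiv.apply_symm_apply, map_zero] at this)
  have h5 : (σ : K →ₐ[k] K) (σ.symm π) = π := σ.apply_symm_apply π
  have h6 : (σ.symm : K →ₐ[k] K) π = σ.symm π := rfl
  rw [h5, hπ] at h4
  rw [h6, hπ, mul_one] at h3
  rw [h3] at h4
  have h7 : e = 1 := by
    have h8 : e ∣ 1 := ⟨e', h4⟩
    exact Int.eq_one_of_dvd_one he.le h8
  have h9 := h1 z hz
  rw [h7, one_mul] at h9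
  exact h9

private lemma h99_S_equiv {K : Type u} [Field K] [Algebra k K] (hK : IsFunctionField k K)
    (g : Place k K → ℂ) (σ : K ≃ₐ[k] K)
    (hg : ∀ w, g (Place.comap hK hK (σ : K →ₐ[k] K) w) = g w) {z : K} (hz : z ≠ 0) :
    h99_S g (σ z) = h99_S g z := by
  let e : Place k K ≃ Place k K :=
    { toFun := fun w => Place.comap hK hK (σ : K →ₐ[k] K) w
      invFun := fun w => Place.comap hK hK (σ.symm : K →ₐ[k] K) w
      left_inv := fun w => h99_comap_comp hK σ σ.symm (fun x => σ.apply_symm_apply x) w
      right_inv := fun w => h99_comap_comp hK σ.symm σ (fun x => σ.symm_apply_apply x) w }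
  unfold h99_S
  rw [← finsum_comp_equiv e (f := fun w : Place k K => (ord w.ring z : ℂ) * g w)]
  apply finsum_congr
  intro w
  change (ord w.ring (σ z) : ℂ) * g w = (ord (Place.comap hK hK (σ : K →ₐ[k] K) w).ring z : ℂ) *
    g (Place.comap hK hK (σ : K →ₐ[k] K) w)
  rw [hg, h99_ord_equiv hK σ w hz]

private lemma h99_up {K L : Type u} [Field K] [Algebra k K] [Field L] [Algebra k L] [Algebra K L]
    [IsScalarTower k K L] (hK : IsFunctionField k K) (hL : IsFunctionField k L)
    {g : Place k K → ℂ} (hg : Harm hK g) {h : K} (h0 : h ≠ 0) :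
    h99_S (fun w => g (VQ.res hK hL w)) (algebraMap K L h) = 0 := by
  classical
  have h1 : algebraMap K L h ≠ 0 := (_root_.map_ne_zero _).mpr h0
  rw [h99_S_eq hL _ h1]
  let ΦL : (Place k L →₀ ℤ) →+ ℂ := Finsupp.liftAddHom fun v =>
    (AddMonoidHom.mulRight (g (VQ.res hK hL v))).comp (Int.castAddHom ℂ)
  let ΦK : (Place k K →₀ ℤ) →+ ℂ := Finsupp.liftAddHom fun v =>
    (AddMonoidHom.mulRight (g v)).comp (Int.castAddHom ℂ)
  have hΦL : ∀ v m, ΦL (Finsupp.single v m) = (m : ℂ) * g (VQ.res hK hL v) := by
    intro v m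
    simp [ΦL]
  have hΦK : ∀ v m, ΦK (Finsupp.single v m) = (m : ℂ) * g v := by
    intro v m
    simp [ΦK]
  have hL2 : ΦL (FF.dv hL (algebraMap K L h)) = ∑ v ∈ (finite_support_ord hL h1).toFinset,
      (ord v.ring (algebraMap K L h) : ℂ) * g (VQ.res hK hL v) := by
    have h2 : FF.dv hL (algebraMap K L h) = ∑ v ∈ (finite_support_ord hL h1).toFinset,
        Finsupp.single v (ord v.ring (algebraMap K L h)) := by
      ext Q
      rw [FF.dv_apply, Finsupp.finsetSum_apply]
      by_cases hQ : Q ∈ (finite_support_ord hL h1).toFinset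
      · rw [Finset.sum_eq_single_of_mem Q hQ]
        · rw [Finsupp.single_eq_same]
        · intro b _ hb
          rw [Finsupp.single_apply, if_neg hb]
      · rw [Finset.sum_eq_zero]
        · by_contra h3
          apply hQ
          rw [Set.Finite.mem_toFinset]
          exact h3
        · intro b hb
          rw [Finsupp.single_apply, if_neg]
          rintro rfl
          exact hQ hb
    rw [h2, map_sum]
    exact Finset.sum_congr rfl fun v _ => hΦL v _
  have hK2 : ΦK (FF.dv hK h) = 0 := by
    rw [← hg h h0]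
    have h2 : FF.dv hK h = ∑ v ∈ (finite_support_ord hK h0).toFinset,
        Finsupp.single v (ord v.ring h) := by
      ext Q
      rw [FF.dv_apply, Finsupp.finsetSum_apply]
      by_cases hQ : Q ∈ (finite_support_ord hK h0).toFinset
      · rw [Finset.sum_eq_single_of_mem Q hQ]
        · rw [Finsupp.single_eq_same]
        · intro b _ hb
          rw [Finsupp.single_apply, if_neg hb]
      · rw [Finset.sum_eq_zero]
        · by_contra h3
          apply hQ
          rw [Set.Finite.mem_toFinset]
          exact h3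
        · intro b hb
          rw [Finsupp.single_apply, if_neg]
          rintro rfl
          exact hQ hb
    rw [h2, map_sum]
    exact Finset.sum_congr rfl fun v _ => hΦK v _
  rw [← hL2]
  rcases isEmpty_or_nonempty (Place k K) with hE | ⟨⟨P0⟩⟩
  · have h2 : FF.dv hL (algebraMap K L h) = 0 := by
      ext Q
      exact (hE.false (VQ.res hK hL Q)).elim
    rw [h2, map_zero]
  have hcomp : ∀ D, ΦL (Pool.Agent.Helper83.QF.pb hK hL D) =
      (Pool.Agent.Helper83.QF.nram hK hL P0 : ℂ) * ΦK D := by
    intro D
    induction D using Finsupp.induction_linear with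
    | zero => rw [map_zero, map_zero, map_zero, mul_zero]
    | add D D' hD hD' => rw [map_add, map_add, map_add, hD, hD', mul_add]
    | single P m =>
      rw [Pool.Agent.Helper83.QF.pb_single, map_sum, hΦK,
        ← Pool.Agent.Helper83.QF.nram_eq hK hL P0 P, Pool.Agent.Helper83.QF.nram]
      push_cast
      rw [Finset.sum_mul]
      apply Finset.sum_congr rfl
      intro Q hQ
      rw [Set.Finite.mem_toFinset] at hQ
      have hQ' : VQ.res hK hL Q = P := hQ
      rw [hΦL, hQ']
      push_cast
      ring
  have h2 := hcomp (FF.dv hK h)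
  rw [Pool.Agent.Helper83.QF.pb_dv hK hL h0, hK2, mul_zero] at h2
  exact h2

private lemma h99_S_pow {K : Type u} [Field K] [Algebra k K] (hK : IsFunctionField k K)
    (g : Place k K → ℂ) {z : K} (hz : z ≠ 0) (n : ℕ) : h99_S g (z ^ n) = n * h99_S g z := by
  induction n with
  | zero => rw [pow_zero, h99_S_one hK, Nat.cast_zero, zero_mul]
  | succ n ih =>
    rw [pow_succ, h99_S_mul hK g (pow_ne_zero n hz) hz, ih]
    push_cast
    ring

/-- An element of a finite normal extension which is invariant under all automorphisms has a power in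
the base field. -/
private lemma h99_insep {F L : Type u} [Field F] [Field L] [Algebra F L]
    [FiniteDimensional F L] [Normal F L] {x : L} (hx : ∀ σ : L ≃ₐ[F] L, σ x = x) :
    ∃ n : ℕ, 0 < n ∧ x ^ n ∈ (algebraMap F L).range := by
  classical
  have hint : IsIntegral F x := Algebra.IsIntegral.isIntegral x
  have hsp := Normal.splits (inferInstance : Normal F L) x
  have h1 : (minpoly F x).natSepDegree = 1 := by
    rw [natSepDegree_eq_of_splits _ hsp, Finset.card_eq_one]
    refine ⟨x, ?_⟩
    ext z
    rw [Multiset.mem_toFinset, Finset.mem_singleton, mem_aroots]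
    constructor
    · rintro ⟨-, h2⟩
      obtain ⟨σ, hσ⟩ := minpoly.exists_algEquiv_of_root' hint.isAlgebraic h2
      rw [← hσ, hx]
    · rintro rfl
      exact ⟨minpoly.ne_zero hint, minpoly.aeval F z⟩
  obtain ⟨n, hn⟩ := (minpoly.natSepDegree_eq_one_iff_pow_mem (ringExpChar F)).1 h1
  exact ⟨_, expChar_pow_pos F (ringExpChar F) n, hn⟩

/-- The statement for a finite normal extension. -/
private lemma h99_gal {F L : Type u} [Field F] [Algebra k F] [Field L] [Algebra k L] [Algebra F L]
    [IsScalarTower k F L] (hF : IsFunctionField k F) (hL : IsFunctionField k L)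
    [FiniteDimensional F L] [Normal F L]
    {g : Place k F → ℂ} (hg : Harm hF g) : Harm hL (fun w => g (VQ.res hF hL w)) := by
  classical
  intro z hz
  rw [← h99_S_eq hL (fun w => g (VQ.res hF hL w)) hz]
  let G := L ≃ₐ[F] L
  have hS : ∀ σ : G, h99_S (fun w => g (VQ.res hF hL w)) (σ z) =
      h99_S (fun w => g (VQ.res hF hL w)) z := by
    intro σ
    have h1 := h99_S_equiv hL (fun w => g (VQ.res hF hL w)) (σ.restrictScalars k) (by
      intro w
      congr 1
      ext x
      change σ (algebraMap F L x) ∈ w.ring ↔ algebraMap F L x ∈ w.ring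
      rw [σ.commutes]) hz
    exact h1
  have hN0 : (∏ σ : G, σ z) ≠ 0 :=
    Finset.prod_ne_zero_iff.mpr fun σ _ => (_root_.map_ne_zero σ).mpr hz
  obtain ⟨n, hn, y, hy⟩ := h99_insep (F := F) (x := ∏ σ : G, σ z) (by
    intro τ
    rw [map_prod]
    exact Fintype.prod_equiv (Equiv.mulLeft τ) _ _ fun σ => rfl)
  have hy0 : y ≠ 0 := by
    rintro rfl
    rw [map_zero] at hy
    exact pow_ne_zero n hN0 hy.symm
  have h2 := h99_up hF hL hg hy0
  rw [hy, h99_S_pow hL _ hN0] at h2
  have h3 := (mul_eq_zero.mp h2).resolve_left (Nat.cast_ne_zero.mpr hn.ne')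
  rw [h99_S_prod hL _ Finset.univ (fun σ : G => σ z)
    (fun σ _ => (_root_.map_ne_zero σ).mpr hz), Finset.sum_congr rfl (fun σ _ => hS σ),
    Finset.sum_const, Finset.card_univ, nsmul_eq_mul] at h3
  rcases mul_eq_zero.mp h3 with h4 | h4
  · exfalso
    have h5 : Fintype.card G ≠ 0 := Fintype.card_ne_zero
    exact (Nat.cast_ne_zero.mpr h5) h4
  · exact h4

end h99aux

variable {k : Type u} [Field k] [IsAlgClosed k] [Good k] {F : Type u} [Field F] [Algebra k F]
  {K : Type u} [Field K] [Algebra k K]

theorem pull_harm {hF : IsFunctionField k F} (hK : IsFunctionField k K) (ι : F →ₐ[k] K)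
    {κ : Place k F → ℂ} (h : Harm hF κ) : Harm hK (fun w => κ (Place.comap hF hK ι w)) := by
  classical
  let iA : Algebra F K := ι.toRingHom.toAlgebra
  have iT : IsScalarTower k F K := IsScalarTower.of_algebraMap_eq (fun x => (ι.commutes x).symm)
  have hfin : FiniteDimensional F K := finite_of_isFunctionField hF hK
  let L := IntermediateField.normalClosure F K (AlgebraicClosure K)
  have alg : Algebra.IsAlgebraic F K := inferInstance
  have halgcl : IsAlgClosure F (AlgebraicClosure K) :=
    ⟨inferInstance, Algebra.IsAlgebraic.trans F K (AlgebraicClosure K)⟩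
  have n0 : Normal F (AlgebraicClosure K) := IsAlgClosure.normal F (AlgebraicClosure K)
  have n1 : Normal F L := inferInstance
  have n3 : FiniteDimensional F L := inferInstance
  have a3 : IsScalarTower F K L := inferInstance
  have a4 : IsScalarTower k F L := inferInstance
  have a5 : IsScalarTower k K L := IsScalarTower.of_algebraMap_eq (fun x => by
    rw [IsScalarTower.algebraMap_apply k F L, IsScalarTower.algebraMap_apply F K L,
      ← IsScalarTower.algebraMap_apply k F K])
  have hL : IsFunctionField k L := ff_ext hF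
  have h1 := h99_gal hF hL h
  intro f hf
  have h2 : algebraMap K L f ≠ 0 := (_root_.map_ne_zero _).mpr hf
  apply Pool.Agent.Helper83.QF.kills_res hK hL (fun w => κ (Place.comap hF hK ι w)) hf h2
  have h3 := h1 (algebraMap K L f) h2
  rw [← h3]
  apply Finset.sum_congr rfl
  intro w _
  congr 2

theorem harm_curve {hF : IsFunctionField k F} {κ : Place k F → ℂ} (h : Harm hF κ) :
    Kills (curve hF) κ := by
  intro z hz
  refine AddSubgroup.closure_induction (p := fun z _ => Finsupp.linearCombination ℤ κ z = 0)
    ?_ ?_ ?_ ?_ hz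
  · rintro z ⟨K, _, _, hK, c, f, hf, rfl⟩
    have hH : Harm hK (fun w => κ ((curve hF).eval hK c w)) := by
      rcases c with P | φ
      · exact harm_const hK (κ P)
      · exact pull_harm hK φ h
    have h1 : ∑ᶠ v : Place k K, Finsupp.single ((curve hF).eval hK c v) (ord v.ring f) =
        ∑ v ∈ (finite_support_ord hK hf).toFinset,
          Finsupp.single ((curve hF).eval hK c v) (ord v.ring f) := by
      apply finsum_eq_sum_of_support_subset
      intro v hv
      rw [Set.Finite.coe_toFinset]
      intro h0
      apply hv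
      have h2 : ord v.ring f = 0 := h0
      change Finsupp.single ((curve hF).eval hK c v) (ord v.ring f) = 0
      rw [h2, Finsupp.single_zero]
    rw [h1, map_sum, ← hH f hf]
    apply Finset.sum_congr rfl
    intro v _
    rw [Finsupp.linearCombination_single, zsmul_eq_mul]
  · rw [map_zero]
  · intro x y _ _ hx hy
    rw [map_add, hx, hy, add_zero]
  · intro x _ hx
    rw [map_neg, hx, neg_zero]

end Pool.Agent.Helper21.TB

end CX
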