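import Mathlib
import Pool.Agent.Helper9.NS
import Pool.Agent.Helper40.CX.H21TO.Defs
import Pool.Agent.Helper40.CX.H51VN.Fun
import Pool.Agent.Helper40.CX.H21TB.CloDef
import Pool.Agent.Helper40.CX.Good2

namespace CX

/-!
# TB: genus one fibrations over a curve

Let `F` be the function field of a curve `B`. The generic fibre of a genus one fibration over `B` is
a torsor `C` under an elliptic curve `E` over `F`, `y ^ 2 = x ^ 3 + a x + b`. Over a finite Galois
extension `L` of `F` the torsor is isomorphic to `E`; its function field over `L` is `Ω = L (x, y)`,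
where `(x, y)` is the generic point of `E`, and the Galois group acts on `Ω` by
`σ (x, y) = (x, y) + e_σ`, where `e_σ` is a point of `E` over `L`. The function field of `C` is the
fixed field of `Ω`.
-/

set_option linter.unusedSectionVars false

namespace Pool.Agent.Helper21.TB

open VC VF Function Polynomial
open Pool.Agent.Helper21.TO

universe u

/-- A genus one fibration over the curve with function field `F`, given by its splitting field `L`,
a finite Galois extension of `F`, and by the action of the Galois group on the field `Ω = L (x, y)`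
of rational functions on the generic fibre over `L`. -/
structure Fibration (k F L Ω : Type u) [Field k] [Field F] [Algebra k F] [Field L] [Algebra k L]
    [Algebra F L] [IsScalarTower k F L] [Field Ω] [Algebra k Ω] [Algebra L Ω]
    [IsScalarTower k L Ω] where
  hF : IsFunctionField k F
  hL : IsFunctionField k L
  /-- the coefficients of the Jacobian `y ^ 2 = x ^ 3 + a x + b` -/
  a : F
  /-- the coefficients of the Jacobian `y ^ 2 = x ^ 3 + a x + b` -/
  b : F
  disc : 4 * a ^ 3 + 27 * b ^ 2 ≠ 0
  /-- the coordinates of the generic point of the Jacobian -/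
  x : Ω
  /-- the second coordinate of the generic point -/
  y : Ω
  hx : Transcendental L x
  eqn : y ^ 2 = x ^ 3 + algebraMap L Ω (algebraMap F L a) * x + algebraMap L Ω (algebraMap F L b)
  gen : IntermediateField.adjoin L {x, y} = ⊤
  /-- the Galois group, acting on `Ω` -/
  G : Subgroup (Ω ≃ₐ[k] Ω)
  finG : Finite G
  stable : ∀ σ ∈ G, ∀ z : L, σ (algebraMap L Ω z) ∈ Set.range (algebraMap L Ω)
  fixF : ∀ σ ∈ G, ∀ f : F, σ (algebraMap L Ω (algebraMap F L f)) =
    algebraMap L Ω (algebraMap F L f)
  fixed : ∀ z : L, (∀ σ ∈ G, σ (algebraMap L Ω z) = algebraMap L Ω z) →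
    z ∈ Set.range (algebraMap F L)
  /-- `σ (x, y) = (x, y) + e_σ`, where `e_σ` is the point at infinity or the point `(e, f)` -/
  translation : ∀ σ ∈ G, (σ x = x ∧ σ y = y) ∨ ∃ e f : L,
    f ^ 2 = e ^ 3 + algebraMap F L a * e + algebraMap F L b ∧
    σ x = ((y - algebraMap L Ω f) / (x - algebraMap L Ω e)) ^ 2 - x - algebraMap L Ω e ∧
    σ y = (y - algebraMap L Ω f) / (x - algebraMap L Ω e) * (x - σ x) - y
  /-- `L` contains the roots of `x ^ 3 + a x + b` -/
  r : Fin 3 → L
  hr : (X ^ 3 + C (algebraMap F L a) * X + C (algebraMap F L b) : L[X]) = ∏ i, (X - C (r i))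
  /-- `L` contains square roots of the differences of the roots -/
  s : Fin 3 → L
  hs : ∀ i, s i ^ 2 = r (i + 1) - r (i + 2)

/-- The embedding of the function field of the base in the function field `Ω`. -/
noncomputable abbrev Fibration.j {k F L Ω : Type u} [Field k] [Field F] [Algebra k F] [Field L]
    [Algebra k L] [Algebra F L] [IsScalarTower k F L] [Field Ω] [Algebra k Ω] [Algebra L Ω]
    [IsScalarTower k L Ω] (_ : Fibration k F L Ω) : F →ₐ[k] Ω :=
  (IsScalarTower.toAlgHom k L Ω).comp (IsScalarTower.toAlgHom k F L)

end Pool.Agent.Helper21.TB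

end CX
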